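import Pool.Agent.N783.CF.Stm

/-!
# Project CF (helper783), part CN1: the counting in terms of the height (helper300)
-/

set_option autoImplicit false
set_option linter.all false

open Polynomial NumberField Matrix
open scoped Classical

namespace Pool.Agent.N300.CF

open Pool.Agent.N352.PJ (dd)
open Pool.Agent.N783.PF (Bd Ht dsc fF SqF IsGen Fam GoodS GoodF LBad Cg sp rd)
open Pool.Agent.N783.CF

theorem t_CN1 : S_MANY → S_FIB → S_UNI → S_DB → S_ADJ → S_NUN → S_FINF →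
    Pool.Agent.N783.PF.S_PTS → S_CN1 := by
  intro hMANY hFIB hUNI hDB hADJ hNUN hFINF hPTS g F _ _ hg
  obtain ⟨δ, hδ, c, hc, B₀, hM⟩ := hMANY g F hg
  obtain ⟨C₁, B₁, hF⟩ := hFIB g F hg δ hδ
  obtain ⟨CD, hCD, hD⟩ := hDB g F hg
  obtain ⟨B₂, hN⟩ := hNUN g F hg δ hδ
  obtain ⟨-, CP, hCP, -, hP⟩ := hPTS F
  have hPf : {a : 𝓞 F | Bd (a : F) C₁}.Finite := by
    refine ((hP ⊤ 0 (max C₁ 0) top_ne_bot (le_max_right _ _)).1).subset ?_
    intro a ha
    exact ⟨Submodule.mem_top, fun σ => (ha σ).trans (le_max_left _ _)⟩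
  obtain ⟨M, hMd⟩ : ∃ M : ℕ, M = max hPf.toFinset.card 1 := ⟨_, rfl⟩
  have hM1 : 1 ≤ M := by rw [hMd]; exact le_max_right _ _
  have hMr : (0 : ℝ) < M := by exact_mod_cast hM1
  refine ⟨c / M, by positivity, max CD 1, le_max_right _ _, max (max B₀ B₁) (max B₂ 1), ?_⟩
  intro B hB
  have hB0 : B₀ ≤ B := (le_max_left _ _).trans ((le_max_left _ _).trans hB)
  have hB1 : B₁ ≤ B := (le_max_right _ _).trans ((le_max_left _ _).trans hB)
  have hB2 : B₂ ≤ B := (le_max_left _ _).trans ((le_max_right _ _).trans hB)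
  have hB3 : 1 ≤ B := (le_max_right _ _).trans ((le_max_right _ _).trans hB)
  have hB3r : (1 : ℝ) ≤ B := by exact_mod_cast hB3
  obtain ⟨hG, hGc⟩ := hM B hB0
  obtain ⟨X, hX⟩ : ∃ X : ℝ, X = max CD 1 * (B : ℝ) ^ (Module.finrank ℚ F * (2 * g * (2 * g + 1))) :=
    ⟨_, rfl⟩
  have hX1 : 1 ≤ X := by
    rw [hX]
    exact one_le_mul_of_one_le_of_one_le (le_max_right _ _) (one_le_pow₀ hB3r)
  have hXD : CD * (B : ℝ) ^ (Module.finrank ℚ F * (2 * g * (2 * g + 1))) ≤ X := by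
    rw [hX]
    exact mul_le_mul_of_nonneg_right (le_max_left _ _) (by positivity)
  rw [← hX]
  have hfin : (Flds F g X).Finite :=
    (hFINF F (2 * g + 1) X (by omega) hX1).subset fun L hL => hL.1
  have hch : ∀ f ∈ {f : (𝓞 F)[X] | Gd g B δ f},
      ∃ (L : IntermediateField F (AlgebraicClosure F)), ∃ (_ : NumberField L) (θ : L),
        IsGen g f θ := fun f hf => hADJ g F f hf.ht.mon hf.ht.deg hf.irr
  choose! Lf hLf using hch
  -- the fields are counted
  have hmem : ∀ f ∈ hG.toFinset, Lf f ∈ hfin.toFinset := by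
    intro f hf
    have hf' : Gd g B δ f := hG.mem_toFinset.1 hf
    obtain ⟨hn, θ, hgen⟩ := hLf f hf'
    refine hfin.mem_toFinset.2 ⟨⟨hgen.rank, hn, ?_⟩, hn, f, θ, hgen, hf'.irr, hf'.sqf, hf'.two, ?_⟩
    · exact (hD B (Lf f) f θ hB3 hgen hf'.ht).trans hXD
    · exact hN B hB2 f hf'.big hf'.irr hf'.ht.mon hf'.ht.deg
  -- the fibres
  have hfib : ∀ L ∈ hG.toFinset.image Lf, (hG.toFinset.filter fun f => Lf f = L).card ≤ M := by
    intro L hL
    obtain ⟨f₀, hf₀, hfL⟩ := Finset.mem_image.1 hL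
    have hf₀' : Gd g B δ f₀ := hG.mem_toFinset.1 hf₀
    have h0 : ∃ (_ : NumberField L) (θ : L), IsGen g f₀ θ := hfL ▸ hLf f₀ hf₀'
    obtain ⟨hn, θ, hgen⟩ := h0
    have hsub : (hG.toFinset.filter fun f => Lf f = L) ⊆
        hPf.toFinset.image (fun a => f₀.scaleRoots a) := by
      intro f hf
      obtain ⟨hf1, hf2⟩ := Finset.mem_filter.1 hf
      have hf1' : Gd g B δ f := hG.mem_toFinset.1 hf1
      have h1 : ∃ (_ : NumberField L) (θ : L), IsGen g f θ := hf2 ▸ hLf f hf1'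
      obtain ⟨hn', θ', hgen'⟩ := h1
      obtain ⟨a, ha, hθ⟩ := hF B hB1 L f₀ f θ θ' hgen hgen' hf₀'.ht hf₀'.sqf hf₀'.big hf1'.ht
      exact Finset.mem_image.2 ⟨a, hPf.mem_toFinset.2 ha,
        (hUNI g F L f₀ f θ θ' a hgen hgen' hθ).symm⟩
    calc (hG.toFinset.filter fun f => Lf f = L).card ≤
        (hPf.toFinset.image (fun a => f₀.scaleRoots a)).card := Finset.card_le_card hsub
      _ ≤ hPf.toFinset.card := Finset.card_image_le
      _ ≤ M := by rw [hMd]; exact le_max_left _ _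
  have hcard : hG.toFinset.card ≤ M * hfin.toFinset.card := by
    refine (Finset.card_le_mul_card_image _ M hfib).trans ?_
    refine Nat.mul_le_mul_left _ (Finset.card_le_card ?_)
    intro L hL
    obtain ⟨f, hf, rfl⟩ := Finset.mem_image.1 hL
    exact hmem f hf
  rw [Set.ncard_eq_toFinset_card _ hG] at hGc
  rw [Set.ncard_eq_toFinset_card _ hfin]
  have hcardr : (hG.toFinset.card : ℝ) ≤ M * (hfin.toFinset.card : ℝ) := by exact_mod_cast hcard
  rw [div_mul_eq_mul_div, div_le_iff₀ hMr]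
  linarith

end Pool.Agent.N300.CF
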